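import Pool.Agent.Lib.MP_642244_an.Final

namespace Pool.Agent.Results.MP_642244_an.NotIso

open Pool.Agent.Lib.MP_642244_an

/-- For every `0 < p < 1` there is a `p`-Banach space `X` whose Lipschitz free `p`-space `F` is
not isomorphic to the `ℓ_p`-sum of copies of `F`. Norms are `p`-th powers of the `p`-norms. -/
theorem result (p : ℝ) (h0 : 0 < p) (h1 : p < 1) :
    ∃ (X : Type) (_ : NormedAddCommGroup X) (_ : Module ℝ X)
      (F : Type) (_ : NormedAddCommGroup F) (_ : Module ℝ F)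
      (j : ({y : X // y ≠ 0} →₀ ℝ) →ₗ[ℝ] F),
      IsPBanach p X ∧ IsPBanach p F ∧ IsFree p j ∧ IsEmpty (F ≃ₜ+ lp (fun _ : ℕ => F) 1) :=
  final p h0 h1

end Pool.Agent.Results.MP_642244_an.NotIso
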